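import Mathlib
import Pool.Agent.Q164.W2.Cohen
import Pool.Agent.Q164.W2.Avg

/-!
# Triangular averages of two commuting power bounded elements
-/

set_option autoImplicit false

namespace Q164.W3

open Filter Topology Q164.W2

section
variable {B : Type*} [NormedRing B] [NormedAlgebra ℂ B]

omit [NormedAlgebra ℂ B] in
theorem S_eq_sum (L R : B) (n : ℕ) :
    S L R n = ∑ i ∈ Finset.range n, L ^ i * R ^ (n - 1 - i) := by
  induction n with
  | zero => simp [S]
  | succ n ih =>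
    rw [S_succ, ih, Finset.sum_range_succ', Finset.mul_sum]
    simp only [pow_zero, one_mul, Nat.sub_zero, Nat.add_sub_cancel]
    congr 1
    refine Finset.sum_congr rfl fun i _ => ?_
    rw [← mul_assoc, ← pow_succ']
    congr 2
    omega

omit [NormedAlgebra ℂ B] in
theorem norm_S_le {L R : B} {K : ℝ} (hL : ∀ n, ‖L ^ n‖ ≤ K) (hR : ∀ n, ‖R ^ n‖ ≤ K) (n : ℕ) :
    ‖S L R n‖ ≤ n * (K * K) := by
  have hK : 0 ≤ K := (norm_nonneg _).trans (hL 0)
  rw [S_eq_sum]
  refine (norm_sum_le _ _).trans ?_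
  have h : ∀ i ∈ Finset.range n, ‖L ^ i * R ^ (n - 1 - i)‖ ≤ K * K := fun i _ =>
    (norm_mul_le _ _).trans (mul_le_mul (hL i) (hR _) (norm_nonneg _) hK)
  refine (Finset.sum_le_sum h).trans ?_
  simp

omit [NormedAlgebra ℂ B] in
theorem norm_Tri_le {L R : B} {K : ℝ} (hL : ∀ n, ‖L ^ n‖ ≤ K) (hR : ∀ n, ‖R ^ n‖ ≤ K) (n : ℕ) :
    ‖Tri L R n‖ ≤ n * (n + 1) / 2 * (K * K) := by
  induction n with
  | zero => simp [Tri]
  | succ n ih =>
    rw [Tri_succ]
    refine (norm_add_le _ _).trans ?_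
    have h2 := norm_S_le hL hR (n + 1)
    have e : (((n + 1 : ℕ) : ℝ) * (((n + 1 : ℕ) : ℝ) + 1) / 2 * (K * K))
        = (n : ℝ) * (n + 1) / 2 * (K * K) + (((n + 1 : ℕ) : ℝ)) * (K * K) := by
      push_cast; ring
    rw [e]
    exact add_le_add ih h2

theorem norm_W_le {L R : B} {K : ℝ} (hL : ∀ n, ‖L ^ n‖ ≤ K) (hR : ∀ n, ‖R ^ n‖ ≤ K) (n : ℕ) :
    ‖W L R n‖ ≤ K * K := by
  unfold W
  have ht := tau_pos n
  rw [norm_smul, Complex.norm_real, Real.norm_of_nonneg (by positivity)]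
  have h := norm_Tri_le hL hR (n + 1)
  have h2 : ‖Tri L R (n + 1)‖ ≤ tau n * (K * K) := by
    refine h.trans (le_of_eq ?_)
    unfold tau; push_cast; ring
  calc 1 / tau n * ‖Tri L R (n + 1)‖ ≤ 1 / tau n * (tau n * (K * K)) :=
        mul_le_mul_of_nonneg_left h2 (by positivity)
    _ = K * K := by rw [← mul_assoc, one_div, inv_mul_cancel₀ ht.ne', one_mul]

omit [NormedAlgebra ℂ B] in
theorem norm_sum_pow_le {L : B} {K : ℝ} (hL : ∀ n, ‖L ^ n‖ ≤ K) (n : ℕ) :
    ‖∑ m ∈ Finset.range n, L ^ m‖ ≤ n * K := by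
  refine (norm_sum_le _ _).trans ?_
  refine (Finset.sum_le_sum fun m _ => hL m).trans ?_
  simp

theorem tendsto_aux {Z : ℕ → B} {C : ℝ} (hZ : ∀ n : ℕ, ‖Z n‖ ≤ (n + 2) * C) :
    Tendsto (fun n => ((1 / tau n : ℝ) : ℂ) • Z n) atTop (𝓝 0) := by
  have h1 : Tendsto (fun n : ℕ => 2 * C * (1 / ((n : ℝ) + 1))) atTop (𝓝 (2 * C * 0)) :=
    tendsto_one_div_add_atTop_nhds_zero_nat.const_mul (2 * C)
  rw [mul_zero] at h1
  refine squeeze_zero_norm (fun n => ?_) h1
  have ht := tau_pos n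
  rw [norm_smul, Complex.norm_real, Real.norm_of_nonneg (by positivity)]
  calc 1 / tau n * ‖Z n‖ ≤ 1 / tau n * ((n + 2) * C) :=
        mul_le_mul_of_nonneg_left (hZ n) (by positivity)
    _ = 2 * C * (1 / ((n : ℝ) + 1)) := by
        unfold tau
        have h2 : (n : ℝ) + 1 ≠ 0 := by positivity
        have h3 : (n : ℝ) + 2 ≠ 0 := by positivity
        field_simp

theorem W_mul_L {L R : B} {K : ℝ} (h : Commute L R) (hL : ∀ n, ‖L ^ n‖ ≤ K)
    (hR : ∀ n, ‖R ^ n‖ ≤ K) : Tendsto (fun n => W L R n * (1 - L)) atTop (𝓝 0) := by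
  have := tendsto_aux (Z := fun n => Tri L R (n + 1) * (1 - L)) (C := K + K * K) (fun n => by
    rw [Tri_mul_L h]
    refine (norm_sub_le _ _).trans ?_
    have h1 := norm_sum_pow_le hR (n + 1 + 1)
    have h2 := norm_S_le hL hR (n + 1 + 1)
    push_cast at h1 h2
    have e : ((n : ℝ) + 2) * (K + K * K) = ((n : ℝ) + 1 + 1) * K + ((n : ℝ) + 1 + 1) * (K * K) := by
      ring
    rw [e]
    exact add_le_add h1 h2)
  refine this.congr fun n => ?_
  unfold W
  rw [smul_mul_assoc]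

theorem W_mul_R {L R : B} {K : ℝ} (hL : ∀ n, ‖L ^ n‖ ≤ K)
    (hR : ∀ n, ‖R ^ n‖ ≤ K) : Tendsto (fun n => W L R n * (1 - R)) atTop (𝓝 0) := by
  have := tendsto_aux (Z := fun n => Tri L R (n + 1) * (1 - R)) (C := K + K * K) (fun n => by
    rw [Tri_mul_R]
    refine (norm_sub_le _ _).trans ?_
    have h1 := norm_sum_pow_le hL (n + 1 + 1)
    have h2 := norm_S_le hL hR (n + 1 + 1)
    push_cast at h1 h2
    have e : ((n : ℝ) + 2) * (K + K * K) = ((n : ℝ) + 1 + 1) * K + ((n : ℝ) + 1 + 1) * (K * K) := by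
      ring
    rw [e]
    exact add_le_add h1 h2)
  refine this.congr fun n => ?_
  unfold W
  rw [smul_mul_assoc]

theorem Nul_W {L R : B} {K : ℝ} (h : Commute L R) (hL : ∀ n, ‖L ^ n‖ ≤ K)
    (hR : ∀ n, ‖R ^ n‖ ≤ K) (m : ℕ) : Nul (W L R) (1 - W L R m) := by
  have h1 : Nul (W L R) (1 - L) := W_mul_L h hL hR
  have h2 : Nul (W L R) (1 - R) := W_mul_R hL hR
  have h3 : ∀ n : ℕ, Nul (W L R) (1 - R ^ n) := by
    intro n
    induction n with
    | zero => simpa using Nul.zero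
    | succ n ih =>
      have e : 1 - R ^ (n + 1) = (1 - R) * R ^ n + (1 - R ^ n) := by
        rw [sub_mul, one_mul, pow_succ']; abel
      rw [e]
      exact (h2.mul_right _).add ih
  have h4 : ∀ n : ℕ, Nul (W L R) ((n : B) - S L R n) := by
    intro n
    induction n with
    | zero => simpa [S] using Nul.zero
    | succ n ih =>
      have e : (((n + 1 : ℕ) : B)) - S L R (n + 1)
          = ((n : B) - S L R n) + (1 - L) * S L R n + (1 - R ^ n) := by
        rw [S_succ, sub_mul, one_mul]; push_cast; abel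
      rw [e]
      exact (ih.add (h1.mul_right _)).add (h3 n)
  have h5 : ∀ n : ℕ, Nul (W L R) ((((n * (n + 1) / 2 : ℝ)) : ℂ) • (1 : B) - Tri L R n) := by
    intro n
    induction n with
    | zero => simpa [Tri] using Nul.zero
    | succ n ih =>
      have e : (((((n + 1 : ℕ) : ℝ) * (((n + 1 : ℕ) : ℝ) + 1) / 2 : ℝ)) : ℂ) • (1 : B)
          - Tri L R (n + 1)
          = ((((n * (n + 1) / 2 : ℝ)) : ℂ) • (1 : B) - Tri L R n)
            + ((((n + 1 : ℕ) : B)) - S L R (n + 1)) := by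
        rw [Tri_succ]
        have e2 : (((n + 1 : ℕ) : B)) = (((n + 1 : ℕ) : ℂ)) • (1 : B) := by
          rw [← Algebra.algebraMap_eq_smul_one, map_natCast]
        rw [e2, sub_add_sub_comm, ← add_smul]
        congr 2
        push_cast
        ring
      rw [e]
      exact ih.add (h4 (n + 1))
  have h6 := (h5 (m + 1)).smul ((1 / tau m : ℝ) : ℂ)
  have e : ((1 / tau m : ℝ) : ℂ) •
      ((((((m + 1 : ℕ) : ℝ) * (((m + 1 : ℕ) : ℝ) + 1) / 2 : ℝ)) : ℂ) • (1 : B) - Tri L R (m + 1))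
      = 1 - W L R m := by
    unfold W
    rw [smul_sub, smul_smul, ← Complex.ofReal_mul]
    have e3 : (1 / tau m) * (((m + 1 : ℕ) : ℝ) * (((m + 1 : ℕ) : ℝ) + 1) / 2) = 1 := by
      unfold tau
      push_cast
      field_simp
      ring
    rw [e3, Complex.ofReal_one, one_smul]
  rw [e] at h6
  exact h6

/-- The hypotheses of Cohen's theorem for `T n = 1 - W n`. -/
theorem T_mul_T {L R : B} {K : ℝ} (h : Commute L R) (hL : ∀ n, ‖L ^ n‖ ≤ K)
    (hR : ∀ n, ‖R ^ n‖ ≤ K) (m : ℕ) :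
    Tendsto (fun n => (1 - W L R n) * (1 - W L R m)) atTop (𝓝 (1 - W L R m)) := by
  have h1 := Nul_W h hL hR m
  have h2 : Tendsto (fun n => (1 - W L R m) - W L R n * (1 - W L R m)) atTop
      (𝓝 ((1 - W L R m) - 0)) := tendsto_const_nhds.sub h1
  rw [sub_zero] at h2
  refine h2.congr fun n => ?_
  rw [sub_mul, one_mul]

/-- the closed span of the elements `1 - b ^ j` -/
noncomputable def Aug (b : B) : Submodule ℂ B :=
  (Submodule.span ℂ (Set.range fun j : ℕ => 1 - b ^ j)).topologicalClosure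

theorem Aug_closed (b : B) : IsClosed (Aug b : Set B) := Submodule.isClosed_topologicalClosure _

theorem pow_mem_Aug (b : B) (j : ℕ) : 1 - b ^ j ∈ Aug b :=
  Submodule.le_topologicalClosure _ (Submodule.subset_span ⟨j, rfl⟩)

theorem W_mem_Aug_gen {a b : B} (c : B) (ha : ∀ i j : ℕ, 1 - a ^ i * b ^ j ∈ Aug c) (n : ℕ) :
    1 - W a b n ∈ Aug c := by
  have h4 : ∀ n : ℕ, ((n : ℂ) • (1 : B) - S a b n) ∈ Aug c := by
    intro n
    have e : ((n : ℂ) • (1 : B) - S a b n)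
        = ∑ i ∈ Finset.range n, (1 - a ^ i * b ^ (n - 1 - i)) := by
      rw [Finset.sum_sub_distrib, ← S_eq_sum]
      simp [Nat.cast_smul_eq_nsmul]
    rw [e]
    exact Submodule.sum_mem _ fun i _ => ha _ _
  have h5 : ∀ n : ℕ, ((((n * (n + 1) / 2 : ℝ)) : ℂ) • (1 : B) - Tri a b n) ∈ Aug c := by
    intro n
    induction n with
    | zero => simp [Tri]
    | succ n ih =>
      have e : (((((n + 1 : ℕ) : ℝ) * (((n + 1 : ℕ) : ℝ) + 1) / 2 : ℝ)) : ℂ) • (1 : B)
          - Tri a b (n + 1)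
          = ((((n * (n + 1) / 2 : ℝ)) : ℂ) • (1 : B) - Tri a b n)
            + ((((n + 1 : ℕ) : ℂ)) • (1 : B) - S a b (n + 1)) := by
        rw [Tri_succ, sub_add_sub_comm, ← add_smul]
        congr 2
        push_cast
        ring
      rw [e]
      exact (Aug c).add_mem ih (h4 (n + 1))
  have h6 := (Aug c).smul_mem ((1 / tau n : ℝ) : ℂ) (h5 (n + 1))
  have e : ((1 / tau n : ℝ) : ℂ) •
      ((((((n + 1 : ℕ) : ℝ) * (((n + 1 : ℕ) : ℝ) + 1) / 2 : ℝ)) : ℂ) • (1 : B) - Tri a b (n + 1))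
      = 1 - W a b n := by
    unfold W
    rw [smul_sub, smul_smul, ← Complex.ofReal_mul]
    have e3 : (1 / tau n) * (((n + 1 : ℕ) : ℝ) * (((n + 1 : ℕ) : ℝ) + 1) / 2) = 1 := by
      unfold tau
      push_cast
      field_simp
      ring
    rw [e3, Complex.ofReal_one, one_smul]
  rw [e] at h6
  exact h6

theorem W_one_mem_Aug (b : B) (n : ℕ) : 1 - W 1 b n ∈ Aug b :=
  W_mem_Aug_gen b (fun i j => by rw [one_pow, one_mul]; exact pow_mem_Aug b j) n

theorem W_self_mem_Aug (b : B) (n : ℕ) : 1 - W b b n ∈ Aug b :=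
  W_mem_Aug_gen b (fun i j => by rw [← pow_add]; exact pow_mem_Aug b _) n

end

end Q164.W3
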