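import Mathlib
import Pool.Agent.Q164.W2.Pair
import Pool.Agent.Q164.W3.Avg

/-!
# The factorisation `x = y e + f z`, power bounded version
-/

set_option autoImplicit false

namespace Q164.W3

open Filter Topology Q164.W2

section
variable {A : Type*} [NormedRing A] [NormedAlgebra ℂ A] [CompleteSpace A] [NormOneClass A]

omit [CompleteSpace A] in
theorem norm_Lm_pow_le {a : A} {K : ℝ} (ha : ∀ n, ‖a ^ n‖ ≤ K) (n : ℕ) : ‖(Lm a) ^ n‖ ≤ K := by
  have hK : 0 ≤ K := (norm_nonneg _).trans (ha 0)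
  refine ContinuousLinearMap.opNorm_le_bound _ hK fun x => ?_
  rw [Lm_pow]
  exact (norm_mul_le _ _).trans (mul_le_mul_of_nonneg_right (ha n) (norm_nonneg _))

omit [CompleteSpace A] in
theorem norm_Rm_pow_le {a : A} {K : ℝ} (ha : ∀ n, ‖a ^ n‖ ≤ K) (n : ℕ) : ‖(Rm a) ^ n‖ ≤ K := by
  have hK : 0 ≤ K := (norm_nonneg _).trans (ha 0)
  refine ContinuousLinearMap.opNorm_le_bound _ hK fun x => ?_
  rw [Rm_pow, mul_comm K]
  exact (norm_mul_le _ _).trans (mul_le_mul_of_nonneg_left (ha n) (norm_nonneg _))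

/-- limits on the closure -/
theorem tendsto_closure {X : Type*} [NormedAddCommGroup X] [NormedSpace ℂ X]
    (V : ℕ → X →L[ℂ] X) {K : ℝ} (hK : 0 < K) (hV : ∀ n, ‖V n‖ ≤ K) (s : Set X)
    (hs : ∀ y ∈ s, Tendsto (fun n => V n y) atTop (𝓝 0)) (x : X) (hx : x ∈ closure s) :
    Tendsto (fun n => V n x) atTop (𝓝 0) := by
  rw [Metric.tendsto_atTop]
  intro ε hε
  obtain ⟨y, hy, hxy⟩ := Metric.mem_closure_iff.1 hx (ε / (2 * K)) (by positivity)
  obtain ⟨N, hN⟩ := Metric.tendsto_atTop.1 (hs y hy) (ε / 2) (by positivity)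
  refine ⟨N, fun n hn => ?_⟩
  rw [dist_zero_right]
  have h1 := hN n hn
  rw [dist_zero_right] at h1
  have h2 : ‖V n (x - y)‖ < ε / 2 := by
    rw [dist_eq_norm] at hxy
    refine lt_of_le_of_lt ((V n).le_opNorm _) ?_
    calc ‖V n‖ * ‖x - y‖ ≤ K * ‖x - y‖ := mul_le_mul_of_nonneg_right (hV n) (norm_nonneg _)
      _ < K * (ε / (2 * K)) := mul_lt_mul_of_pos_left hxy hK
      _ = ε / 2 := by field_simp
  have h3 : V n x = V n (x - y) + V n y := by rw [← map_add, sub_add_cancel]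
  rw [h3]
  refine lt_of_le_of_lt (norm_add_le _ _) ?_
  linarith

/-- the second factorisation -/
theorem factor_RI {a : A} {K : ℝ} (ha : ∀ n, ‖a ^ n‖ ≤ K) (J : Submodule ℂ A)
    (hJ : IsClosed (J : Set A)) (hl : ∀ x ∈ J, ∀ a, a * x ∈ J) (x : A) (hx : x ∈ J)
    (hxR : x ∈ RI a) : ∃ y ∈ J, ∃ f ∈ Aug a, x = f * y := by
  have hLa := norm_Lm_pow_le ha
  have hK1 : 1 ≤ K := by have := ha 0; rwa [pow_zero, norm_one] at this
  have hKK : 0 < K * K := by positivity
  have hlim : Tendsto (fun n => W (Lm a) (Lm a) n x) atTop (𝓝 0) := by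
    refine tendsto_closure _ hKK (fun n => norm_W_le hLa hLa n) _ ?_ x hxR
    rintro _ ⟨y, rfl⟩
    have h1 := W_mul_L (Commute.refl (Lm a)) hLa hLa
    have h2 := ((ContinuousLinearMap.apply ℂ A y).continuous.tendsto _).comp h1
    rw [map_zero] at h2
    refine h2.congr fun n => ?_
    show (W (Lm a) (Lm a) n * (1 - Lm a)) y = W (Lm a) (Lm a) n (Lm (1 - a) y)
    rw [mul_apply_eq_comp]
    congr 1
    rw [Lm_apply, sub_apply, one_apply_eq_self, Lm_apply, sub_mul, one_mul]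
  have hlim' : Tendsto (fun n => (1 - W (Lm a) (Lm a) n) x) atTop (𝓝 x) := by
    have h1 : Tendsto (fun n => x - W (Lm a) (Lm a) n x) atTop (𝓝 (x - 0)) :=
      tendsto_const_nhds.sub hlim
    rw [sub_zero] at h1
    exact h1.congr fun n => by rw [sub_apply, one_apply_eq_self]
  obtain ⟨y, hy, c, n, hc, hcs, hs⟩ := cohen_inv (fun n => 1 - W (Lm a) (Lm a) n) J hJ
    (fun n x hx => by
      rw [sub_apply, one_apply_eq_self, W_Lm]
      exact J.sub_mem hx (hl _ hx _)) (K * K)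
    (fun n => by
      have : (1 - (1 - W (Lm a) (Lm a) n)) = W (Lm a) (Lm a) n := by abel
      rw [this]
      exact norm_W_le hLa hLa n)
    (T_mul_T (Commute.refl _) hLa hLa) x hx hlim'
  have hfs : Summable fun k => (c k : ℂ) • (1 - W a a (n k)) := by
    refine Summable.of_norm_bounded (hcs.mul_right (1 + K * K)) fun k => ?_
    rw [norm_smul, Complex.norm_real, Real.norm_of_nonneg (hc k)]
    refine mul_le_mul_of_nonneg_left ?_ (hc k)
    refine (norm_sub_le _ _).trans ?_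
    rw [norm_one]
    linarith [norm_W_le ha ha (n k)]
  refine ⟨y, hy, ∑' k, (c k : ℂ) • (1 - W a a (n k)), ?_, ?_⟩
  · refine (Aug_closed a).mem_of_tendsto hfs.hasSum (Filter.Eventually.of_forall fun s => ?_)
    exact (Aug a).sum_mem fun k _ => (Aug a).smul_mem _ (W_self_mem_Aug a _)
  · have h1 := (Rm y).hasSum hfs.hasSum
    rw [Rm_apply] at h1
    refine hs.unique (h1.congr_fun fun k => ?_)
    rw [Rm_apply, sub_apply, one_apply_eq_self, W_Lm, smul_mul_assoc, sub_mul, one_mul]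

/-- the factorisation for a pair -/
theorem factor_pair {a b : A} {K : ℝ} (ha : ∀ n, ‖a ^ n‖ ≤ K) (hb : ∀ n, ‖b ^ n‖ ≤ K)
    (J : Submodule ℂ A) (hJ : IsClosed (J : Set A))
    (hl : ∀ x ∈ J, ∀ a, a * x ∈ J) (hr : ∀ x ∈ J, ∀ a, x * a ∈ J)
    (hlim : ∀ x ∈ J, Tendsto (fun n => W (Lm a) (Rm b) n x) atTop (𝓝 0))
    (x : A) (hx : x ∈ J) :
    ∃ y ∈ J, ∃ e ∈ Aug b, ∃ z ∈ J, ∃ f ∈ Aug a, x = y * e + f * z := by
  have hLa := norm_Lm_pow_le ha
  have hRb := norm_Rm_pow_le hb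
  have hK1 : 1 ≤ K := by have := ha 0; rwa [pow_zero, norm_one] at this
  have hlim' : Tendsto (fun n => (1 - W (Lm a) (Rm b) n) x) atTop (𝓝 x) := by
    have h1 : Tendsto (fun n => x - W (Lm a) (Rm b) n x) atTop (𝓝 (x - 0)) :=
      tendsto_const_nhds.sub (hlim x hx)
    rw [sub_zero] at h1
    exact h1.congr fun n => by rw [sub_apply, one_apply_eq_self]
  obtain ⟨y, hy, c, n, hc, hcs, hs⟩ := cohen_inv (fun n => 1 - W (Lm a) (Rm b) n) J hJ
    (fun n x hx => by
      rw [sub_apply, one_apply_eq_self]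
      exact J.sub_mem hx (W_mem J hl hr a b x hx n)) (K * K)
    (fun n => by
      have : (1 - (1 - W (Lm a) (Rm b) n)) = W (Lm a) (Rm b) n := by abel
      rw [this]
      exact norm_W_le hLa hRb n)
    (T_mul_T (comm_Lm_Rm a b) hLa hRb) x hx hlim'
  have h1n : ∀ n : ℕ, ‖(1 : A) ^ n‖ ≤ K := fun n => by rw [one_pow, norm_one]; exact hK1
  have hes : Summable fun k => (c k : ℂ) • (1 - W 1 b (n k)) := by
    refine Summable.of_norm_bounded (hcs.mul_right (1 + K * K)) fun k => ?_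
    rw [norm_smul, Complex.norm_real, Real.norm_of_nonneg (hc k)]
    refine mul_le_mul_of_nonneg_left ?_ (hc k)
    refine (norm_sub_le _ _).trans ?_
    rw [norm_one]
    linarith [norm_W_le h1n hb (n k)]
  set e := ∑' k, (c k : ℂ) • (1 - W 1 b (n k)) with he
  have hψe : e ∈ Aug b := by
    refine (Aug_closed b).mem_of_tendsto hes.hasSum (Filter.Eventually.of_forall fun s => ?_)
    exact (Aug b).sum_mem fun k _ => (Aug b).smul_mem _ (W_one_mem_Aug b _)
  have hr1 : HasSum (fun k => (c k : ℂ) • (y * W 1 b (n k) - W (Lm a) (Rm b) (n k) y))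
      (x - y * e) := by
    have h2 := (Lm y).hasSum hes.hasSum
    rw [← he, Lm_apply] at h2
    refine (hs.sub h2).congr_fun fun k => ?_
    rw [Lm_apply, sub_apply, one_apply_eq_self, mul_smul_comm, ← smul_sub, mul_sub, mul_one]
    congr 1
    abel
  have hmem : x - y * e ∈ RI a := by
    refine (RI_closed a).mem_of_tendsto hr1 (Filter.Eventually.of_forall fun s => ?_)
    exact (RI a).sum_mem fun k _ => (RI a).smul_mem _ (W_mod_RI _ _ _ _)
  obtain ⟨z, hz, f, hf, hxz⟩ := factor_RI ha J hJ hl (x - y * e)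
    (J.sub_mem hx (hr _ hy _)) hmem
  exact ⟨y, hy, e, hψe, z, hz, f, hf, by rw [← hxz]; abel⟩

end

end Q164.W3
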