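import Mathlib
import Pool.Agent.Q164.W2.Model

/-!
# A second moment bound for planted words, matrix valued
-/

set_option autoImplicit false
set_option linter.unusedSectionVars false

namespace Q164.W3

open Filter Topology ComplexConjugate Q164.W2
open scoped Matrix.Norms.Operator

/-- one step of a martingale: second moments add -/
theorem step_moment {Ω G : Type} {p : Ω → ℝ} {μ : G → ℝ} (hp : ∀ ω, 0 ≤ p ω) (hp1 : HasSum p 1)
    (hμ : ∀ v, 0 ≤ μ v) (hμ1 : HasSum μ 1) {d : Ω → ℂ} {e : Ω → G → ℂ} {C q : ℝ}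
    (he : ∀ ω v, ‖e ω v‖ ≤ C) (hz : ∀ ω, HasSum (fun v => (μ v : ℂ) * e ω v) 0)
    (hq : HasSum (fun ω => p ω * ‖d ω‖ ^ 2) q) :
    ∃ q', HasSum (fun z : Ω × G => p z.1 * μ z.2 * ‖d z.1 + e z.1 z.2‖ ^ 2) q' ∧ q' ≤ q + C ^ 2 := by
  have hpμ : HasSum (fun z : Ω × G => p z.1 * μ z.2) (1 * 1) :=
    hp1.mul hμ1 (summable_mul_of_summable_norm (f := p) (g := μ) hp1.summable.norm
      hμ1.summable.norm)
  rw [mul_one] at hpμ
  have hsq1 : HasSum (fun z : Ω × G => (p z.1 * ‖d z.1‖ ^ 2) * μ z.2) (q * 1) :=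
    hq.mul hμ1 (summable_mul_of_summable_norm (f := fun ω => p ω * ‖d ω‖ ^ 2) (g := μ)
      hq.summable.norm hμ1.summable.norm)
  rw [mul_one] at hsq1
  have hs2 : Summable (fun z : Ω × G => p z.1 * μ z.2 * ‖e z.1 z.2‖ ^ 2) := by
    refine Summable.of_nonneg_of_le (fun z => mul_nonneg (mul_nonneg (hp _) (hμ _)) (by positivity))
      (fun z => ?_) (hpμ.summable.mul_right (C ^ 2))
    exact mul_le_mul_of_nonneg_left (pow_le_pow_left₀ (norm_nonneg _) (he _ _) 2)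
      (mul_nonneg (hp _) (hμ _))
  have hs2' : ∑' z : Ω × G, p z.1 * μ z.2 * ‖e z.1 z.2‖ ^ 2 ≤ C ^ 2 := by
    have h1 := hs2.tsum_le_tsum (g := fun z : Ω × G => p z.1 * μ z.2 * C ^ 2) (fun z =>
      mul_le_mul_of_nonneg_left (pow_le_pow_left₀ (norm_nonneg _) (he _ _) 2)
      (mul_nonneg (hp _) (hμ _))) (hpμ.summable.mul_right (C ^ 2))
    rw [tsum_mul_right, hpμ.tsum_eq, one_mul] at h1
    exact h1
  -- the cross term
  have hpd : Summable fun ω => p ω * ‖d ω‖ := summable_norm_of_sq hp hp1 hq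
  have hs3 : Summable (fun z : Ω × G =>
      ((p z.1 : ℂ) * conj (d z.1)) * ((μ z.2 : ℂ) * e z.1 z.2)) := by
    have h1 : Summable (fun z : Ω × G => (p z.1 * ‖d z.1‖) * (μ z.2 * C)) :=
      summable_mul_of_summable_norm (f := fun ω => p ω * ‖d ω‖) (g := fun v => μ v * C)
        hpd.norm (hμ1.summable.mul_right C).norm
    refine Summable.of_norm_bounded h1 fun z => ?_
    rw [norm_mul, norm_mul, norm_mul, Complex.norm_conj, Complex.norm_real, Complex.norm_real,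
      Real.norm_of_nonneg (hp _), Real.norm_of_nonneg (hμ _)]
    refine mul_le_mul_of_nonneg_left ?_ (mul_nonneg (hp _) (norm_nonneg _))
    exact mul_le_mul_of_nonneg_left (he _ _) (hμ _)
  have hcross : HasSum (fun z : Ω × G =>
      ((p z.1 : ℂ) * conj (d z.1)) * ((μ z.2 : ℂ) * e z.1 z.2)) 0 := by
    have h1 := hs3.hasSum
    have h2 := h1.prod_fiberwise (g := fun _ => (0 : ℂ)) (fun ω => by
      have := (hz ω).mul_left ((p ω : ℂ) * conj (d ω))
      rwa [mul_zero] at this)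
    have h3 := h2.unique hasSum_zero
    rwa [h3] at h1
  have hcross' : HasSum (fun z : Ω × G =>
      (((p z.1 : ℂ) * conj (d z.1)) * ((μ z.2 : ℂ) * e z.1 z.2)).re) 0 := by
    have := Complex.reCLM.hasSum hcross
    simpa using this
  refine ⟨q + (∑' z : Ω × G, p z.1 * μ z.2 * ‖e z.1 z.2‖ ^ 2) + 2 * 0, ?_, by linarith⟩
  refine ((hsq1.add hs2.hasSum).add (hcross'.mul_left 2)).congr_fun fun z => ?_
  have e1 : ‖d z.1 + e z.1 z.2‖ ^ 2
      = ‖d z.1‖ ^ 2 + ‖e z.1 z.2‖ ^ 2 + 2 * (d z.1 * conj (e z.1 z.2)).re := by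
    rw [← Complex.normSq_eq_norm_sq, Complex.normSq_add, Complex.normSq_eq_norm_sq,
      Complex.normSq_eq_norm_sq]
  have e2 : (((p z.1 : ℂ) * conj (d z.1)) * ((μ z.2 : ℂ) * e z.1 z.2)).re
      = p z.1 * μ z.2 * (d z.1 * conj (e z.1 z.2)).re := by
    have e3 : ((p z.1 : ℂ) * conj (d z.1)) * ((μ z.2 : ℂ) * e z.1 z.2)
        = ((p z.1 * μ z.2 : ℝ) : ℂ) * conj (d z.1 * conj (e z.1 z.2)) := by
      rw [map_mul, Complex.conj_conj]; push_cast; ring
    rw [e3, Complex.re_ofReal_mul, Complex.conj_re]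
  rw [e1, e2]
  ring

theorem unif_eq {ι A : Type*} [Fintype ι] [DecidableEq ι] [NormedRing A] :
    (NormedRing.toSeminormedRing (α := Matrix ι ι A)).toPseudoMetricSpace.toUniformSpace
      = Matrix.instUniformSpace ι ι A := by
  with_unfolding_all rfl

instance mcomp {ι A : Type*} [Fintype ι] [DecidableEq ι] [NormedRing A] [CompleteSpace A] :
    @CompleteSpace (Matrix ι ι A)
      (NormedRing.toSeminormedRing (α := Matrix ι ι A)).toPseudoMetricSpace.toUniformSpace := by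
  rw [unif_eq]; exact Matrix.instCompleteSpace ι ι A

section
variable {A : Type*} [NormedRing A] [NormedAlgebra ℂ A] [CompleteSpace A]
variable {G : Type} [Group G] {ι : Type} [Fintype ι] [DecidableEq ι]

/-- `δ_g ⊗ X` -/
def Dl (δ : G → A) (g : G) (X : Matrix ι ι ℂ) : Matrix ι ι A := X.map fun z => z • δ g

theorem Dl_apply (δ : G → A) (g : G) (X : Matrix ι ι ℂ) (i j : ι) :
    Dl δ g X i j = X i j • δ g := rfl

theorem Dl_mul {δ : G → A} (hδm : ∀ g h, δ (g * h) = δ g * δ h) (g h : G) (X Y : Matrix ι ι ℂ) :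
    Dl δ g X * Dl δ h Y = Dl δ (g * h) (X * Y) := by
  ext i j
  rw [Matrix.mul_apply, Dl_apply, Matrix.mul_apply, Finset.sum_smul]
  refine Finset.sum_congr rfl fun k _ => ?_
  rw [Dl_apply, Dl_apply, smul_mul_smul_comm, hδm]

theorem Dl_add (δ : G → A) (g : G) (X Y : Matrix ι ι ℂ) :
    Dl δ g (X + Y) = Dl δ g X + Dl δ g Y := by
  ext i j
  rw [Dl_apply, Matrix.add_apply, Matrix.add_apply, add_smul, Dl_apply, Dl_apply]

theorem Dl_smul (δ : G → A) (g : G) (c : ℂ) (X : Matrix ι ι ℂ) :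
    Dl δ g (c • X) = c • Dl δ g X := by
  ext i j
  rw [Dl_apply, Matrix.smul_apply, Matrix.smul_apply, Dl_apply, smul_smul, smul_eq_mul]

theorem norm_Dl_le {δ : G → A} (hδ : ∀ g, ‖δ g‖ ≤ 1) (g : G) (X : Matrix ι ι ℂ) :
    ‖Dl δ g X‖ ≤ ‖X‖ := by
  rw [Matrix.linfty_opNorm_def, Matrix.linfty_opNorm_def]
  norm_cast
  refine Finset.sup_mono_fun fun i _ => Finset.sum_le_sum fun j _ => ?_
  rw [Dl_apply]
  have h1 : ‖X i j • δ g‖ ≤ ‖X i j‖ := by
    rw [norm_smul]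
    calc ‖X i j‖ * ‖δ g‖ ≤ ‖X i j‖ * 1 := mul_le_mul_of_nonneg_left (hδ g) (norm_nonneg _)
      _ = ‖X i j‖ := mul_one _
  exact h1

theorem norm_entry_le (X : Matrix ι ι A) (i j : ι) : ‖X i j‖ ≤ ‖X‖ := by
  rw [Matrix.linfty_opNorm_def]
  have h1 : ‖X i j‖₊ ≤ Finset.univ.sup fun i => ∑ j, ‖X i j‖₊ :=
    (Finset.single_le_sum (f := fun j => ‖X i j‖₊) (fun _ _ => zero_le) (Finset.mem_univ j)).trans
      (Finset.le_sup (f := fun i => ∑ j, ‖X i j‖₊) (Finset.mem_univ i))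
  exact_mod_cast h1

theorem norm_le_sum_entries (X : Matrix ι ι A) : ‖X‖ ≤ ∑ i, ∑ j, ‖X i j‖ := by
  rw [Matrix.linfty_opNorm_def]
  have h1 : (Finset.univ.sup fun i => ∑ j, ‖X i j‖₊) ≤ ∑ i, ∑ j, ‖X i j‖₊ := by
    refine Finset.sup_le fun i _ => ?_
    exact Finset.single_le_sum (f := fun i => ∑ j, ‖X i j‖₊) (fun _ _ => zero_le)
      (Finset.mem_univ i)
  have h2 := NNReal.coe_le_coe.2 h1
  simpa only [NNReal.coe_sum, coe_nnnorm] using h2

/-- the convolution of two absolutely convergent series -/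
theorem hasSum_Dl_mul {δ : G → A} (hδm : ∀ g h, δ (g * h) = δ g * δ h)
    {Ω Ω' : Type} {p : Ω → ℝ} {p' : Ω' → ℝ} {Y : Ω → G} {Y' : Ω' → G}
    {X : Ω → Matrix ι ι ℂ} {X' : Ω' → Matrix ι ι ℂ} {x x' : Matrix ι ι A}
    (hs : Summable fun ω => ‖(p ω : ℂ) • Dl δ (Y ω) (X ω)‖)
    (hs' : Summable fun ω => ‖(p' ω : ℂ) • Dl δ (Y' ω) (X' ω)‖)
    (hx : HasSum (fun ω => (p ω : ℂ) • Dl δ (Y ω) (X ω)) x)
    (hx' : HasSum (fun ω => (p' ω : ℂ) • Dl δ (Y' ω) (X' ω)) x') :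
    HasSum (fun z : Ω × Ω' => ((p z.1 * p' z.2 : ℝ) : ℂ) •
      Dl δ (Y z.1 * Y' z.2) (X z.1 * X' z.2)) (x * x') := by
  have h1 := summable_mul_of_summable_norm hs hs'
  have h2 := hx.mul hx' h1
  refine h2.congr_fun fun z => ?_
  rw [smul_mul_smul_comm, Dl_mul hδm]
  push_cast
  rfl

/-- summability of `p |D|` entrywise implies summability of norms -/
theorem summable_norm_matrix {Ω : Type} {p : Ω → ℝ} (hp : ∀ ω, 0 ≤ p ω) {D : Ω → Matrix ι ι ℂ}
    (hs : ∀ i j, Summable fun ω => p ω * ‖D ω i j‖) : Summable fun ω => p ω * ‖D ω‖ := by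
  have h1 : Summable fun ω => ∑ i, ∑ j, p ω * ‖D ω i j‖ :=
    summable_sum fun i _ => summable_sum fun j _ => hs i j
  refine Summable.of_nonneg_of_le (fun ω => mul_nonneg (hp ω) (norm_nonneg _)) (fun ω => ?_) h1
  calc p ω * ‖D ω‖ ≤ p ω * ∑ i, ∑ j, ‖D ω i j‖ :=
        mul_le_mul_of_nonneg_left (norm_le_sum_entries _) (hp ω)
    _ = ∑ i, ∑ j, p ω * ‖D ω i j‖ := by
        rw [Finset.mul_sum]
        exact Finset.sum_congr rfl fun i _ => Finset.mul_sum _ _ _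

theorem model {δ : G → A} (hδ : ∀ g, ‖δ g‖ ≤ 1) (hδm : ∀ g h, δ (g * h) = δ g * δ h)
    (hδ1 : δ 1 = 1)
    {μ : G → ℝ} (hμ0 : ∀ g, 0 ≤ μ g) (hμ1 : HasSum μ 1)
    {P R : G → Matrix ι ι ℂ} {K : ℝ} (hP : ∀ g, ‖P g‖ ≤ K) (hR : ∀ g, ‖R g‖ ≤ K)
    (hPm : ∀ g h, P (g * h) = P g * P h) (hP1 : P 1 = 1)
    (hRm : ∀ g h, R (g * h) = R g * R h) (hR1 : R 1 = 1)
    {m : G → ℂ} {T : Matrix ι ι ℂ} {C : ℝ} (hm : ∀ g, ‖m g‖ ≤ C)
    (hz : ∀ i j, HasSum (fun v => (μ v : ℂ) * (m v * R v⁻¹ i j)) 0)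
    {a b x : Matrix ι ι A} (ha : HasSum (fun v => (μ v : ℂ) • Dl δ v (P v)) a)
    (hb : HasSum (fun v => (μ v : ℂ) • Dl δ v (R v)) b)
    (hx : HasSum (fun v => (μ v : ℂ) • Dl δ v (m v • T)) x) (n : ℕ) :
    ∃ (Ω : Type) (p : Ω → ℝ) (Y : Ω → G) (D : Ω → Matrix ι ι ℂ), (∀ ω, 0 ≤ p ω) ∧ HasSum p 1 ∧
      (∀ i j, ∃ q, HasSum (fun ω => p ω * ‖D ω i j‖ ^ 2) q ∧
        q ≤ n * (C * (K * ‖T‖ * K * K)) ^ 2) ∧
      HasSum (fun ω => (p ω : ℂ) • Dl δ (Y ω) (D ω * R (Y ω))) (sq a b x n) ∧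
      HasSum (fun ω => (p ω : ℂ) • Dl δ (Y ω) (P (Y ω))) (a ^ n) := by
  induction n with
  | zero =>
    refine ⟨Unit, fun _ => 1, fun _ => 1, fun _ => 0, fun _ => zero_le_one,
      hasSum_unique (fun _ : Unit => (1 : ℝ)), fun i j => ⟨0, ?_, ?_⟩, ?_, ?_⟩
    · simp
    · simp
    · have h0 : Dl δ (1 : G) (0 : Matrix ι ι ℂ) = 0 := by
        ext i j; simp [Dl_apply]
      simp [Q164.W2.sq, h0]
    · have h1 : Dl δ (1 : G) (1 : Matrix ι ι ℂ) = 1 := by
        ext i j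
        rw [Dl_apply, hδ1]
        by_cases hij : i = j
        · subst hij; simp
        · simp [hij]
      simp [hP1, h1]
  | succ n ih =>
    obtain ⟨Ω, p, Y, D, hp, hp1, hq, hs, hM⟩ := ih
    have hK0 : 0 ≤ K := (norm_nonneg _).trans (hP 1)
    have hC0 : 0 ≤ C := (norm_nonneg _).trans (hm 1)
    -- summability facts
    have hD : Summable fun ω => p ω * ‖D ω‖ := summable_norm_matrix hp fun i j => by
      obtain ⟨q, hq1, -⟩ := hq i j
      exact summable_norm_of_sq hp hp1 hq1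
    have s1 : Summable fun ω => ‖(p ω : ℂ) • Dl δ (Y ω) (D ω * R (Y ω))‖ := by
      refine Summable.of_nonneg_of_le (fun ω => norm_nonneg _) (fun ω => ?_) (hD.mul_right K)
      rw [norm_smul, Complex.norm_real, Real.norm_of_nonneg (hp ω), mul_assoc]
      refine mul_le_mul_of_nonneg_left ((norm_Dl_le hδ _ _).trans ?_) (hp ω)
      exact (Matrix.linfty_opNorm_mul _ _).trans
        (mul_le_mul_of_nonneg_left (hR _) (norm_nonneg _))
    have s2 : Summable fun v => ‖(μ v : ℂ) • Dl δ v (R v)‖ := by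
      refine Summable.of_nonneg_of_le (fun v => norm_nonneg _) (fun v => ?_)
        (hμ1.summable.mul_right K)
      rw [norm_smul, Complex.norm_real, Real.norm_of_nonneg (hμ0 v)]
      exact mul_le_mul_of_nonneg_left ((norm_Dl_le hδ _ _).trans (hR _)) (hμ0 v)
    have s3 : Summable fun ω => ‖(p ω : ℂ) • Dl δ (Y ω) (P (Y ω))‖ := by
      refine Summable.of_nonneg_of_le (fun ω => norm_nonneg _) (fun ω => ?_)
        (hp1.summable.mul_right K)
      rw [norm_smul, Complex.norm_real, Real.norm_of_nonneg (hp ω)]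
      exact mul_le_mul_of_nonneg_left ((norm_Dl_le hδ _ _).trans (hP _)) (hp ω)
    have s4 : Summable fun v => ‖(μ v : ℂ) • Dl δ v (m v • T)‖ := by
      refine Summable.of_nonneg_of_le (fun v => norm_nonneg _) (fun v => ?_)
        (hμ1.summable.mul_right (C * ‖T‖))
      rw [norm_smul, Complex.norm_real, Real.norm_of_nonneg (hμ0 v)]
      refine mul_le_mul_of_nonneg_left ((norm_Dl_le hδ _ _).trans ?_) (hμ0 v)
      rw [norm_smul]
      exact mul_le_mul_of_nonneg_right (hm v) (norm_nonneg _)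
    have s5 : Summable fun v => ‖(μ v : ℂ) • Dl δ v (P v)‖ := by
      refine Summable.of_nonneg_of_le (fun v => norm_nonneg _) (fun v => ?_)
        (hμ1.summable.mul_right K)
      rw [norm_smul, Complex.norm_real, Real.norm_of_nonneg (hμ0 v)]
      exact mul_le_mul_of_nonneg_left ((norm_Dl_le hδ _ _).trans (hP _)) (hμ0 v)
    have hRinv : ∀ g, R g⁻¹ * R g = 1 := fun g => by rw [← hRm, inv_mul_cancel, hR1]
    refine ⟨Ω × G, fun z => p z.1 * μ z.2, fun z => Y z.1 * z.2,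
      fun z => D z.1 + P (Y z.1) * (m z.2 • T) * R (Y z.1 * z.2)⁻¹, ?_, ?_, ?_, ?_, ?_⟩
    · intro z; exact mul_nonneg (hp _) (hμ0 _)
    · have h1 := hp1.mul hμ1 (summable_mul_of_summable_norm (f := p) (g := μ) hp1.summable.norm
        hμ1.summable.norm)
      rwa [mul_one] at h1
    · intro i j
      obtain ⟨q, hq1, hq2⟩ := hq i j
      obtain ⟨q', hq3, hq4⟩ := step_moment hp hp1 hμ0 hμ1 (d := fun ω => D ω i j)
        (e := fun ω v => (P (Y ω) * (m v • T) * R (Y ω * v)⁻¹) i j)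
        (C := C * (K * ‖T‖ * K * K)) (q := q) (fun ω v => by
          refine (norm_entry_le _ i j).trans ?_
          rw [mul_inv_rev, hRm]
          have h1 : P (Y ω) * (m v • T) * (R v⁻¹ * R (Y ω)⁻¹)
              = m v • (P (Y ω) * T * (R v⁻¹ * R (Y ω)⁻¹)) := by
            rw [mul_smul_comm, smul_mul_assoc]
          rw [h1, norm_smul]
          refine mul_le_mul (hm v) ?_ (norm_nonneg _) hC0
          refine (Matrix.linfty_opNorm_mul _ _).trans ?_
          have h2 : ‖P (Y ω) * T‖ ≤ K * ‖T‖ := (Matrix.linfty_opNorm_mul _ _).trans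
            (mul_le_mul_of_nonneg_right (hP _) (norm_nonneg _))
          have h3 : ‖R v⁻¹ * R (Y ω)⁻¹‖ ≤ K * K := (Matrix.linfty_opNorm_mul _ _).trans
            (mul_le_mul (hR _) (hR _) (norm_nonneg _) hK0)
          calc ‖P (Y ω) * T‖ * ‖R v⁻¹ * R (Y ω)⁻¹‖ ≤ (K * ‖T‖) * (K * K) :=
                mul_le_mul h2 h3 (norm_nonneg _) (mul_nonneg hK0 (norm_nonneg _))
            _ = K * ‖T‖ * K * K := by ring) (fun ω => by
          have h1 : HasSum (fun v => ∑ l, (∑ k, (P (Y ω) * T) i k * ((μ v : ℂ) * (m v * R v⁻¹ k l)))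
              * R (Y ω)⁻¹ l j) (∑ l, (∑ k, (P (Y ω) * T) i k * 0) * R (Y ω)⁻¹ l j) :=
            hasSum_sum fun l _ => (hasSum_sum fun k _ => (hz k l).mul_left _).mul_right _
          simp only [mul_zero, Finset.sum_const_zero, zero_mul] at h1
          refine h1.congr_fun fun v => ?_
          rw [mul_inv_rev, hRm]
          have h2 : P (Y ω) * (m v • T) * (R v⁻¹ * R (Y ω)⁻¹)
              = m v • ((P (Y ω) * T) * R v⁻¹ * R (Y ω)⁻¹) := by
            rw [mul_smul_comm, smul_mul_assoc, mul_assoc (P (Y ω) * T)]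
          rw [h2, Matrix.smul_apply, smul_eq_mul, Matrix.mul_apply, Finset.mul_sum, Finset.mul_sum]
          refine Finset.sum_congr rfl fun l _ => ?_
          rw [Matrix.mul_apply, Finset.sum_mul, Finset.sum_mul, Finset.mul_sum, Finset.mul_sum]
          refine Finset.sum_congr rfl fun k _ => ?_
          ring) hq1
      refine ⟨q', hq3.congr_fun fun z => rfl, ?_⟩
      push_cast
      linarith
    · have h1 := hasSum_Dl_mul hδm s1 s2 hs hb
      have h2 := hasSum_Dl_mul hδm s3 s4 hM hx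
      refine (h1.add h2).congr_fun fun z => ?_
      rw [← smul_add, ← Dl_add]
      congr 2
      rw [add_mul, hRm, mul_assoc (D z.1)]
      congr 1
      rw [mul_assoc (P (Y z.1) * (m z.2 • T)), ← hRm (Y z.1) z.2, hRinv, mul_one]
    · have h2 := hasSum_Dl_mul hδm s3 s5 hM ha
      rw [pow_succ]
      refine h2.congr_fun fun z => ?_
      rw [hPm]

theorem norm_sq_le {δ : G → A} (hδ : ∀ g, ‖δ g‖ ≤ 1) (hδm : ∀ g h, δ (g * h) = δ g * δ h)
    (hδ1 : δ 1 = 1)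
    {μ : G → ℝ} (hμ0 : ∀ g, 0 ≤ μ g) (hμ1 : HasSum μ 1)
    {P R : G → Matrix ι ι ℂ} {K : ℝ} (hP : ∀ g, ‖P g‖ ≤ K) (hR : ∀ g, ‖R g‖ ≤ K)
    (hPm : ∀ g h, P (g * h) = P g * P h) (hP1 : P 1 = 1)
    (hRm : ∀ g h, R (g * h) = R g * R h) (hR1 : R 1 = 1)
    {m : G → ℂ} {T : Matrix ι ι ℂ} {C : ℝ} (hm : ∀ g, ‖m g‖ ≤ C)
    (hz : ∀ i j, HasSum (fun v => (μ v : ℂ) * (m v * R v⁻¹ i j)) 0)
    {a b x : Matrix ι ι A} (ha : HasSum (fun v => (μ v : ℂ) • Dl δ v (P v)) a)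
    (hb : HasSum (fun v => (μ v : ℂ) • Dl δ v (R v)) b)
    (hx : HasSum (fun v => (μ v : ℂ) • Dl δ v (m v • T)) x) :
    ∃ C' : ℝ, 0 ≤ C' ∧ ∀ n : ℕ, ‖sq a b x n‖ ≤ C' * Real.sqrt n := by
  have hK0 : 0 ≤ K := (norm_nonneg _).trans (hP 1)
  have hC0 : 0 ≤ C := (norm_nonneg _).trans (hm 1)
  obtain ⟨c, hc⟩ : ∃ c, c = C * (K * ‖T‖ * K * K) + 1 := ⟨_, rfl⟩
  have hc0 : 0 < c := by rw [hc]; positivity
  refine ⟨(∑ _i : ι, ∑ _j : ι, c) * K, by positivity, fun n => ?_⟩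
  obtain ⟨Ω, p, Y, D, hp, hp1, hq, hs, -⟩ :=
    model hδ hδm hδ1 hμ0 hμ1 hP hR hPm hP1 hRm hR1 hm hz ha hb hx n
  rcases Nat.eq_zero_or_pos n with hn | hn
  · subst hn
    simp [Q164.W2.sq]
  · have hn' : (0 : ℝ) < n := by exact_mod_cast hn
    obtain ⟨t, ht⟩ : ∃ t, t = c * Real.sqrt n := ⟨_, rfl⟩
    have ht0 : 0 < t := by rw [ht]; exact mul_pos hc0 (Real.sqrt_pos.2 hn')
    have ht2 : t ^ 2 = n * c ^ 2 := by
      rw [ht, mul_pow, Real.sq_sqrt hn'.le]; ring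
    have hle : (n : ℝ) * (C * (K * ‖T‖ * K * K)) ^ 2 ≤ t ^ 2 := by
      rw [ht2, hc]
      refine mul_le_mul_of_nonneg_left ?_ hn'.le
      exact pow_le_pow_left₀ (by positivity) (by linarith) 2
    choose q hq1 hq2 using hq
    have hb' : HasSum (fun ω => (∑ i, ∑ j, (p ω * t + p ω * ‖D ω i j‖ ^ 2 * (1 / t)) * (1 / 2)) * K)
        ((∑ i, ∑ j, (1 * t + q i j * (1 / t)) * (1 / 2)) * K) :=
      (hasSum_sum fun i _ => hasSum_sum fun j _ =>
        (((hp1.mul_right t).add ((hq1 i j).mul_right (1 / t))).mul_right (1 / 2))).mul_right K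
    have h1 : ‖sq a b x n‖ ≤ (∑ i, ∑ j, (1 * t + q i j * (1 / t)) * (1 / 2)) * K := by
      refine hs.norm_le_of_bounded hb' fun ω => ?_
      rw [norm_smul, Complex.norm_real, Real.norm_of_nonneg (hp ω)]
      have h2 : ‖Dl δ (Y ω) (D ω * R (Y ω))‖ ≤ (∑ i, ∑ j, ‖D ω i j‖) * K := by
        refine (norm_Dl_le hδ _ _).trans ((Matrix.linfty_opNorm_mul _ _).trans ?_)
        exact mul_le_mul (norm_le_sum_entries _) (hR _) (norm_nonneg _) (by positivity)
      have h3 : ∀ i j, ‖D ω i j‖ ≤ (t + ‖D ω i j‖ ^ 2 * (1 / t)) * (1 / 2) := by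
        intro i j
        have h3 : 2 * t * ‖D ω i j‖ ≤ t ^ 2 + ‖D ω i j‖ ^ 2 := by
          nlinarith [sq_nonneg (t - ‖D ω i j‖)]
        have h4 : (t + ‖D ω i j‖ ^ 2 * (1 / t)) * (1 / 2) = (t ^ 2 + ‖D ω i j‖ ^ 2) / (2 * t) := by
          field_simp
        rw [h4, le_div_iff₀ (by positivity)]
        linarith
      calc p ω * ‖Dl δ (Y ω) (D ω * R (Y ω))‖
          ≤ p ω * ((∑ i, ∑ j, ‖D ω i j‖) * K) := mul_le_mul_of_nonneg_left h2 (hp ω)
        _ ≤ p ω * ((∑ i, ∑ j, (t + ‖D ω i j‖ ^ 2 * (1 / t)) * (1 / 2)) * K) := by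
            refine mul_le_mul_of_nonneg_left (mul_le_mul_of_nonneg_right ?_ hK0) (hp ω)
            exact Finset.sum_le_sum fun i _ => Finset.sum_le_sum fun j _ => h3 i j
        _ = _ := by
            rw [← mul_assoc, Finset.mul_sum]
            congr 1
            refine Finset.sum_congr rfl fun i _ => ?_
            rw [Finset.mul_sum]
            refine Finset.sum_congr rfl fun j _ => ?_
            ring
    refine h1.trans ?_
    have h6 : ∀ i j, (1 * t + q i j * (1 / t)) * (1 / 2) ≤ c * Real.sqrt n := by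
      intro i j
      have h5 : q i j * (1 / t) ≤ t := by
        rw [mul_one_div, div_le_iff₀ ht0, ← pow_two]
        exact (hq2 i j).trans hle
      rw [← ht]
      linarith
    calc (∑ i, ∑ j, (1 * t + q i j * (1 / t)) * (1 / 2)) * K
        ≤ (∑ _i : ι, ∑ _j : ι, c * Real.sqrt n) * K :=
          mul_le_mul_of_nonneg_right (Finset.sum_le_sum fun i _ => Finset.sum_le_sum fun j _ => h6 i j)
            hK0
      _ = (∑ _i : ι, ∑ _j : ι, c) * K * Real.sqrt n := by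
          simp only [← Finset.sum_mul]
          ring

end

end Q164.W3
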