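import Mathlib
import Pool.Agent.Q164.W2.Conc
import Pool.Agent.Q164.W3.Model
import Pool.Agent.Q164.W3.Fact

/-!
# Closed cofinite ideals of `ℓ¹(G)` are idempotent
-/

set_option autoImplicit false
set_option linter.unusedSectionVars false

namespace Q164.W3

open Filter Topology ComplexConjugate Q164.W2
open scoped Matrix.Norms.Operator Matrix

section
variable {A : Type} [NormedRing A] [NormedAlgebra ℂ A] [CompleteSpace A] [NormOneClass A]
variable {G : Type} [Group G] {δ : G → A}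

/-- a basis of the quotient consisting of classes of group elements, with coordinates -/
theorem exists_coord (hrep : ∀ x : A, ∃ c : G → ℂ, Summable (fun g => ‖c g‖) ∧
      HasSum (fun g => c g • δ g) x)
    (J : Submodule ℂ A) (hJ : IsClosed (J : Set A)) [FiniteDimensional ℂ (A ⧸ J)] :
    ∃ (d : ℕ) (u : Fin d → G) (c : Fin d → (A →L[ℂ] ℂ)), (∀ x, x ∈ J ↔ ∀ k, c k x = 0) ∧
      (∀ k l, c k (δ (u l)) = if k = l then 1 else 0) := by
  have hJc : IsClosed (J : Set A) := hJ
  let q : A →L[ℂ] (A ⧸ J) := J.mkQL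
  have hq0 : ∀ x, q x = 0 ↔ x ∈ J := fun x => Submodule.Quotient.mk_eq_zero J
  have hqs : Function.Surjective q := Submodule.Quotient.mk_surjective J
  obtain ⟨s, hs⟩ : ∃ s : Set (A ⧸ J), s = Set.range fun g => q (δ g) := ⟨_, rfl⟩
  have hspan : Submodule.span ℂ s = ⊤ := by
    have hcl : IsClosed ((Submodule.span ℂ s : Submodule ℂ (A ⧸ J)) : Set (A ⧸ J)) :=
      Submodule.closed_of_finiteDimensional _
    rw [eq_top_iff]
    intro z _
    obtain ⟨x, rfl⟩ := hqs z
    obtain ⟨c, -, hcx⟩ := hrep x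
    have h3 := q.hasSum hcx
    refine hcl.mem_of_tendsto h3 (Filter.Eventually.of_forall fun t => ?_)
    refine Submodule.sum_mem _ fun v _ => ?_
    rw [map_smul]
    refine Submodule.smul_mem _ _ (Submodule.subset_span ?_)
    rw [hs]; exact ⟨v, rfl⟩
  obtain ⟨b, hbs, hbspan, hbli⟩ := exists_linearIndependent ℂ s
  have hbf : Finite b := hbli.finite
  let B0 : Module.Basis b ℂ (A ⧸ J) := Module.Basis.mk hbli (by
    rw [Subtype.range_coe_subtype, Set.ofPred_mem_eq, hbspan, hspan])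
  obtain ⟨n, ⟨e⟩⟩ := Finite.exists_equiv_fin b
  let B1 : Module.Basis (Fin n) ℂ (A ⧸ J) := B0.reindex e
  have hu : ∀ k : Fin n, ∃ g, B1 k = q (δ g) := by
    intro k
    have h1 : B1 k = ((e.symm k : b) : A ⧸ J) := by
      simp [B1, B0]
    have h2 : ((e.symm k : b) : A ⧸ J) ∈ s := hbs (e.symm k).2
    rw [hs] at h2
    obtain ⟨g, hg⟩ := h2
    exact ⟨g, by rw [h1, ← hg]⟩
  choose u hu using hu
  refine ⟨n, u, fun k => (LinearMap.toContinuousLinearMap (B1.coord k)).comp q, ?_, ?_⟩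
  · intro x
    rw [← hq0]
    constructor
    · intro h k
      show B1.coord k (q x) = 0
      rw [h, map_zero]
    · intro h
      refine B1.ext_elem fun k => ?_
      rw [map_zero, Finsupp.zero_apply]
      exact h k
  · intro k l
    show B1.coord k (q (δ (u l))) = _
    rw [← hu, Module.Basis.coord_apply, B1.repr_self, Finsupp.single_apply]
    simp only [eq_comm]

/-- evaluation of a weighted indicator sum -/
theorem hasSum_ind {E : Type*} [NormedAddCommGroup E] [NormedSpace ℂ E] [DecidableEq G]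
    {μ : G → ℝ} (hμ0 : ∀ g, 0 < μ g) (v0 : G) (f : G → E) :
    HasSum (fun v => (μ v : ℂ) • ((if v = v0 then ((1 / μ v0 : ℝ) : ℂ) else 0) • f v)) (f v0) := by
  have e1 : HasSum (fun v => if v = v0 then f v0 else 0) (f v0) := hasSum_ite_eq v0 _
  refine e1.congr_fun fun v => ?_
  by_cases hv : v = v0
  · subst hv
    simp only [if_true]
    rw [smul_smul, ← Complex.ofReal_mul, mul_one_div_cancel (hμ0 v).ne', Complex.ofReal_one,
      one_smul]
  · simp [hv]

/-- the entry functional -/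
noncomputable def ev {ι : Type} [Fintype ι] [DecidableEq ι] (i j : ι) :
    Matrix ι ι A →L[ℂ] A :=
  LinearMap.mkContinuous
    { toFun := fun X => X i j
      map_add' := fun _ _ => rfl
      map_smul' := fun _ _ => rfl } 1 (fun X => by
        rw [one_mul]; exact norm_entry_le X i j)

theorem ev_apply {ι : Type} [Fintype ι] [DecidableEq ι] (i j : ι) (X : Matrix ι ι A) :
    ev i j X = X i j := rfl

/-- the matrix with a single entry -/
noncomputable def sg {ι : Type} [Fintype ι] [DecidableEq ι] (i j : ι) :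
    A →L[ℂ] Matrix ι ι A :=
  LinearMap.mkContinuous
    { toFun := fun y => Matrix.single i j y
      map_add' := fun x y => Matrix.single_add i j x y
      map_smul' := fun c y => (Matrix.smul_single c i j y).symm } 1 (fun y => by
        rw [one_mul]
        refine (norm_le_sum_entries _).trans (le_of_eq ?_)
        show ∑ i', ∑ j', ‖Matrix.single i j y i' j'‖ = ‖y‖
        rw [Finset.sum_eq_single i, Finset.sum_eq_single j]
        · rw [Matrix.single_apply_same]
        · intro j' _ hj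
          rw [Matrix.single_apply_of_ne _ _ _ _ _ (fun h => hj h.2.symm), norm_zero]
        · intro h; exact absurd (Finset.mem_univ j) h
        · intro i' _ hi
          refine Finset.sum_eq_zero fun j' _ => ?_
          rw [Matrix.single_apply_of_ne _ _ _ _ _ (fun h => hi h.1.symm), norm_zero]
        · intro h; exact absurd (Finset.mem_univ i) h)

theorem sg_apply {ι : Type} [Fintype ι] [DecidableEq ι] (i j : ι) (y : A) :
    sg i j y = Matrix.single i j y := rfl

theorem sg_delta {ι : Type} [Fintype ι] [DecidableEq ι] (i j : ι) (g : G) :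
    sg i j (δ g) = Dl δ g (Matrix.single i j 1) := by
  rw [sg_apply]
  ext i' j'
  rw [Dl_apply, Matrix.single_apply, Matrix.single_apply]
  split_ifs <;> simp

/-- the theorem -/
theorem idem_cofinite (hδ : ∀ g, ‖δ g‖ ≤ 1) (hδm : ∀ g h, δ (g * h) = δ g * δ h) (hδ1 : δ 1 = 1)
    (hrep : ∀ x : A, ∃ c : G → ℂ, Summable (fun g => ‖c g‖) ∧ HasSum (fun g => c g • δ g) x)
    [Countable G]
    (J : Submodule ℂ A) (hJ : IsClosed (J : Set A)) (hl : ∀ x ∈ J, ∀ a, a * x ∈ J)
    (hr : ∀ x ∈ J, ∀ a, x * a ∈ J) [FiniteDimensional ℂ (A ⧸ J)] :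
    Submodule.span ℂ {h : A | ∃ a ∈ J, ∃ b ∈ J, h = a * b} = J := by
  classical
  obtain ⟨V, hV⟩ : ∃ V : Submodule ℂ A, V = Submodule.span ℂ
    {h : A | ∃ a ∈ J, ∃ b ∈ J, h = a * b} := ⟨_, rfl⟩
  rw [← hV]
  have hVm : ∀ a ∈ J, ∀ b ∈ J, a * b ∈ V := by
    intro a ha b hb
    rw [hV]
    exact Submodule.subset_span ⟨a, ha, b, hb, rfl⟩
  refine le_antisymm ?_ ?_
  · rw [hV, Submodule.span_le]
    rintro _ ⟨a, ha, b, hb, rfl⟩
    exact hr _ ha _
  intro x hx
  obtain ⟨d, u, c, hcJ, hcu⟩ := exists_coord hrep J hJ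
  obtain ⟨bv, hbv⟩ : ∃ bv : Fin d → A, bv = fun k => δ (u k) := ⟨_, rfl⟩
  have hcb : ∀ k l, c k (bv l) = if k = l then 1 else 0 := by
    intro k l; rw [hbv]; exact hcu k l
  -- decomposition
  have hdec : ∀ y : A, y - ∑ k, c k y • bv k ∈ J := by
    intro y
    rw [hcJ]
    intro k
    rw [map_sub, map_sum]
    simp only [map_smul, smul_eq_mul, hcb]
    simp
  -- the unit
  obtain ⟨w, hw⟩ : ∃ w : A, w = ∑ k, c k 1 • bv k := ⟨_, rfl⟩
  have h1w : 1 - w ∈ J := by rw [hw]; exact hdec 1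
  -- the case `d = 0`
  rcases Nat.eq_zero_or_pos d with hd0 | hd0
  · subst hd0
    have h1 : (1 : A) ∈ J := by
      rw [hcJ]; intro k; exact Fin.elim0 k
    have := hVm 1 h1 x hx
    rwa [one_mul] at this
  have hne : Nonempty (Fin d) := ⟨⟨0, hd0⟩⟩
  obtain ⟨μ, hμ0, hμ1⟩ := exists_weight G
  -- the two matrix representations
  obtain ⟨P, hPdef⟩ : ∃ P : G → Matrix (Fin d) (Fin d) ℂ,
    P = fun g => Matrix.of fun j i => c j (bv i * δ g⁻¹) := ⟨_, rfl⟩
  obtain ⟨R, hRdef⟩ : ∃ R : G → Matrix (Fin d) (Fin d) ℂ,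
    R = fun g => Matrix.of fun l k => c k (δ g⁻¹ * bv l) := ⟨_, rfl⟩
  have hPa : ∀ g j i, P g j i = c j (bv i * δ g⁻¹) := fun g j i => by rw [hPdef]; rfl
  have hRa : ∀ g l k, R g l k = c k (δ g⁻¹ * bv l) := fun g l k => by rw [hRdef]; rfl
  have hcJ0 : ∀ y ∈ J, ∀ k, c k y = 0 := fun y hy => (hcJ y).1 hy
  have hceq : ∀ y z : A, y - z ∈ J → ∀ k, c k y = c k z := fun y z h k => by
    have := hcJ0 _ h k
    rwa [map_sub, sub_eq_zero] at this
  have hPm : ∀ g h, P (g * h) = P g * P h := by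
    intro g h
    ext j i
    rw [hPa, Matrix.mul_apply, mul_inv_rev, hδm, ← mul_assoc]
    have h1 := hceq _ _ (by
      have := hr _ (hdec (bv i * δ h⁻¹)) (δ g⁻¹)
      rwa [sub_mul] at this) j
    rw [h1, Finset.sum_mul, map_sum]
    refine Finset.sum_congr rfl fun k _ => ?_
    rw [smul_mul_assoc, map_smul, smul_eq_mul, hPa, hPa, mul_comm]
  have hRm : ∀ g h, R (g * h) = R g * R h := by
    intro g h
    ext l k
    rw [hRa, Matrix.mul_apply, mul_inv_rev, hδm, mul_assoc]
    have h1 := hceq _ _ (by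
      have := hl _ (hdec (δ g⁻¹ * bv l)) (δ h⁻¹)
      rwa [mul_sub] at this) k
    rw [h1, Finset.mul_sum, map_sum]
    refine Finset.sum_congr rfl fun m _ => ?_
    rw [mul_smul_comm, map_smul, smul_eq_mul, hRa, hRa]
  have hP1 : P 1 = 1 := by
    ext j i
    rw [hPa, inv_one, hδ1, mul_one, hcb, Matrix.one_apply]
  have hR1 : R 1 = 1 := by
    ext j i
    rw [hRa, inv_one, hδ1, one_mul, hcb, Matrix.one_apply]
    simp only [eq_comm]
  obtain ⟨K, hK⟩ : ∃ K : ℝ, K = ∑ _i : Fin d, ∑ j : Fin d, ‖c j‖ := ⟨_, rfl⟩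
  have hbn : ∀ k, ‖bv k‖ ≤ 1 := fun k => by rw [hbv]; exact hδ _
  have hcn : ∀ (j : Fin d) (g h : G) , ‖c j (δ g * δ h)‖ ≤ ‖c j‖ := fun j g h => by
    refine ((c j).le_opNorm _).trans ?_
    rw [← hδm]
    calc ‖c j‖ * ‖δ (g * h)‖ ≤ ‖c j‖ * 1 := mul_le_mul_of_nonneg_left (hδ _) (norm_nonneg _)
      _ = ‖c j‖ := mul_one _
  have hPK : ∀ g, ‖P g‖ ≤ K := fun g => by
    refine (norm_le_sum_entries _).trans ?_
    rw [hK, Finset.sum_comm]
    refine Finset.sum_le_sum fun i _ => Finset.sum_le_sum fun j _ => ?_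
    rw [hPa, hbv]
    exact hcn _ _ _
  have hRK : ∀ g, ‖R g‖ ≤ K := fun g => by
    refine (norm_le_sum_entries _).trans ?_
    rw [hK]
    refine Finset.sum_le_sum fun i _ => Finset.sum_le_sum fun j _ => ?_
    rw [hRa, hbv]
    exact hcn _ _ _
  -- the two elements of the matrix algebra
  have hsum : ∀ X : G → Matrix (Fin d) (Fin d) ℂ, (∀ g, ‖X g‖ ≤ K) →
      Summable (fun v => (μ v : ℂ) • Dl δ v (X v)) := by
    intro X hX
    refine Summable.of_norm_bounded (hμ1.summable.mul_right K) fun v => ?_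
    rw [norm_smul, Complex.norm_real, Real.norm_of_nonneg (hμ0 v).le]
    exact mul_le_mul_of_nonneg_left ((norm_Dl_le hδ _ _).trans (hX _)) (hμ0 v).le
  obtain ⟨a, ha⟩ := hsum P hPK
  obtain ⟨b, hb⟩ := hsum R hRK
  have hpow : ∀ (X : G → Matrix (Fin d) (Fin d) ℂ) (z : Matrix (Fin d) (Fin d) A),
      (∀ g, ‖X g‖ ≤ K) → (∀ g h, X (g * h) = X g * X h) → X 1 = 1 →
      HasSum (fun v => (μ v : ℂ) • Dl δ v (X v)) z → ∀ n, ‖z ^ n‖ ≤ K := by
    intro X z hXK hXm hX1 hz n
    have h0 : HasSum (fun v => (μ v : ℂ) • Dl δ v ((0 : ℂ) • (0 : Matrix (Fin d) (Fin d) ℂ)))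
        (0 : Matrix (Fin d) (Fin d) A) := by
      have e : ∀ v, (μ v : ℂ) • Dl δ v ((0 : ℂ) • (0 : Matrix (Fin d) (Fin d) ℂ))
          = (0 : Matrix (Fin d) (Fin d) A) := by
        intro v; ext i j
        simp [Dl_apply]
      simp only [e]
      exact hasSum_zero
    obtain ⟨Ω, p, Y, D, hp, hp1, -, -, hs⟩ := model hδ hδm hδ1 (fun g => (hμ0 g).le) hμ1 hXK hXK
      hXm hX1 hXm hX1 (m := fun _ => 0) (T := 0) (C := 0) (fun g => by simp)
      (fun i j => by simp) hz hz h0 n
    have h1 := hs.norm_le_of_bounded (hp1.mul_right K) (fun ω => by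
      rw [norm_smul, Complex.norm_real, Real.norm_of_nonneg (hp ω)]
      exact mul_le_mul_of_nonneg_left ((norm_Dl_le hδ _ _).trans (hXK _)) (hp ω))
    rwa [one_mul] at h1
  have han := hpow P a hPK hPm hP1 ha
  have hbn' := hpow R b hRK hRm hR1 hb
  -- the limit on basic elements
  have hK1 : 1 ≤ K := by have := han 0; rwa [pow_zero, norm_one] at this
  have hlim0 : ∀ (T : Matrix (Fin d) (Fin d) ℂ) (g : G),
      Tendsto (fun n => W (Lm a) (Rm b) n (Dl δ g T - ∑ k, c k (δ g) • Dl δ (u k) T)) atTop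
        (𝓝 0) := by
    intro T g
    obtain ⟨m, hm⟩ : ∃ m : G → ℂ, m = fun v => (if v = g then ((1 / μ g : ℝ) : ℂ) else 0)
      - ∑ k, c k (δ g) * (if v = u k then ((1 / μ (u k) : ℝ) : ℂ) else 0) := ⟨_, rfl⟩
    have hmC : ∀ v, ‖m v‖ ≤ 1 / μ g + ∑ k, ‖c k‖ * (1 / μ (u k)) := by
      intro v
      rw [hm]
      refine (norm_sub_le _ _).trans (add_le_add ?_ ((norm_sum_le _ _).trans
        (Finset.sum_le_sum fun k _ => ?_)))
      · have := hμ0 g
        split_ifs
        · rw [Complex.norm_real, Real.norm_of_nonneg (by positivity)]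
        · rw [norm_zero]; positivity
      · have := hμ0 (u k)
        rw [norm_mul]
        refine mul_le_mul ?_ ?_ (norm_nonneg _) (norm_nonneg _)
        · refine ((c k).le_opNorm _).trans ?_
          calc ‖c k‖ * ‖δ g‖ ≤ ‖c k‖ * 1 := mul_le_mul_of_nonneg_left (hδ _) (norm_nonneg _)
            _ = ‖c k‖ := mul_one _
        · split_ifs
          · rw [Complex.norm_real, Real.norm_of_nonneg (by positivity)]
          · rw [norm_zero]; positivity
    have hgen : ∀ {E : Type} [NormedAddCommGroup E] [NormedSpace ℂ E] (f : G → E),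
        HasSum (fun v => (μ v : ℂ) • (m v • f v)) (f g - ∑ k, c k (δ g) • f (u k)) := by
      intro E _ _ f
      have e1 := hasSum_ind hμ0 g f
      have e2 : HasSum (fun v => ∑ k, c k (δ g) •
          ((μ v : ℂ) • ((if v = u k then ((1 / μ (u k) : ℝ) : ℂ) else 0) • f v)))
          (∑ k, c k (δ g) • f (u k)) :=
        hasSum_sum fun k _ => (hasSum_ind hμ0 (u k) f).const_smul _
      refine (e1.sub e2).congr_fun fun v => ?_
      rw [hm]
      simp only [sub_smul, smul_sub, Finset.sum_smul, Finset.smul_sum]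
      congr 1
      refine Finset.sum_congr rfl fun k _ => ?_
      rw [smul_comm (c k (δ g)) ((μ v : ℂ)), mul_smul]
    have hz : ∀ i j, HasSum (fun v => (μ v : ℂ) * (m v * R v⁻¹ i j)) 0 := by
      intro i j
      have h1 := hgen (fun v => R v⁻¹ i j)
      have h2 : R g⁻¹ i j - ∑ k, c k (δ g) • R (u k)⁻¹ i j = 0 := by
        have h3 := hcJ0 _ (hr _ (hdec (δ g)) (bv i)) j
        rw [sub_mul, Finset.sum_mul, map_sub, map_sum] at h3
        rw [← h3, hRa, inv_inv]
        congr 1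
        refine Finset.sum_congr rfl fun k _ => ?_
        rw [hRa, inv_inv, smul_mul_assoc, map_smul, hbv]
      rw [h2] at h1
      exact h1
    have hx' : HasSum (fun v => (μ v : ℂ) • Dl δ v (m v • T))
        (Dl δ g T - ∑ k, c k (δ g) • Dl δ (u k) T) := by
      refine (hgen (fun v => Dl δ v T)).congr_fun fun v => ?_
      rw [Dl_smul]
    obtain ⟨C', hC', hb'⟩ := norm_sq_le hδ hδm hδ1 (fun g => (hμ0 g).le) hμ1 hPK hRK hPm hP1 hRm
      hR1 hmC hz ha hb hx'
    exact tendsto_W_of_sq hC' hb'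
  -- the limit for a single entry in `J`
  have hWn : ∀ n, ‖W (Lm a) (Rm b) n‖ ≤ K * K := fun n =>
    norm_W_le (norm_Lm_pow_le han) (norm_Rm_pow_le hbn') n
  have hlim1 : ∀ (i j : Fin d) (y : A), y ∈ J →
      Tendsto (fun n => W (Lm a) (Rm b) n (sg i j y)) atTop (𝓝 0) := by
    intro i j y hy
    obtain ⟨f, hf, hfy⟩ := hrep y
    have e0 : ∀ k, HasSum (fun g => f g * c k (δ g)) 0 := by
      intro k
      have h1 := (c k).hasSum hfy
      rw [hcJ0 y hy k] at h1
      refine h1.congr_fun fun g => ?_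
      rw [map_smul, smul_eq_mul]
    obtain ⟨T, hT⟩ : ∃ T : Matrix (Fin d) (Fin d) ℂ, T = Matrix.single i j 1 := ⟨_, rfl⟩
    have h1 : HasSum (fun g => f g • (Dl δ g T - ∑ k, c k (δ g) • Dl δ (u k) T)) (sg i j y) := by
      have h2 := (sg (A := A) i j).hasSum hfy
      have h3 : HasSum (fun g => ∑ k, (f g * c k (δ g)) • Dl δ (u k) T)
          (∑ k, (0 : ℂ) • Dl δ (u k) T) :=
        hasSum_sum fun k _ => (e0 k).smul_const _
      simp only [zero_smul, Finset.sum_const_zero] at h3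
      have h4 := h2.sub h3
      rw [sub_zero] at h4
      refine h4.congr_fun fun g => ?_
      rw [map_smul, sg_delta, ← hT, smul_sub, Finset.smul_sum]
      congr 1
      refine Finset.sum_congr rfl fun k _ => ?_
      rw [smul_smul]
    have h5 : ∀ n, HasSum (fun g => f g • W (Lm a) (Rm b) n
        (Dl δ g T - ∑ k, c k (δ g) • Dl δ (u k) T)) (W (Lm a) (Rm b) n (sg i j y)) := by
      intro n
      refine ((W (Lm a) (Rm b) n).hasSum h1).congr_fun fun g => ?_
      rw [map_smul]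
    obtain ⟨C0, hC0⟩ : ∃ C0 : ℝ, C0 = ‖T‖ + ∑ k, ‖c k‖ * ‖T‖ := ⟨_, rfl⟩
    have h6 : Tendsto (fun n => ∑' g, f g • W (Lm a) (Rm b) n
        (Dl δ g T - ∑ k, c k (δ g) • Dl δ (u k) T)) atTop
        (𝓝 (∑' g : G, (0 : Matrix (Fin d) (Fin d) A))) := by
      refine tendsto_tsum_of_dominated_convergence (bound := fun g => ‖f g‖ * (K * K * C0))
        (hf.mul_right _) (fun g => ?_) (Filter.Eventually.of_forall fun n g => ?_)
      · have := (hlim0 T g).const_smul (f g)
        rwa [smul_zero] at this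
      · rw [norm_smul]
        refine mul_le_mul_of_nonneg_left ?_ (norm_nonneg _)
        refine ((W (Lm a) (Rm b) n).le_opNorm _).trans ?_
        have h7 : ‖Dl δ g T - ∑ k, c k (δ g) • Dl δ (u k) T‖ ≤ C0 := by
          rw [hC0]
          refine (norm_sub_le _ _).trans (add_le_add (norm_Dl_le hδ _ _)
            ((norm_sum_le _ _).trans (Finset.sum_le_sum fun k _ => ?_)))
          rw [norm_smul]
          refine mul_le_mul ?_ (norm_Dl_le hδ _ _) (norm_nonneg _) (norm_nonneg _)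
          refine ((c k).le_opNorm _).trans ?_
          calc ‖c k‖ * ‖δ g‖ ≤ ‖c k‖ * 1 := mul_le_mul_of_nonneg_left (hδ _) (norm_nonneg _)
            _ = ‖c k‖ := mul_one _
        exact mul_le_mul (hWn n) h7 (norm_nonneg _) (by positivity)
    rw [tsum_zero] at h6
    exact h6.congr fun n => (h5 n).tsum_eq
  -- the ideal of the matrix algebra
  obtain ⟨JB, hJB⟩ : ∃ JB : Submodule ℂ (Matrix (Fin d) (Fin d) A),
      JB = ⨅ i, ⨅ j, J.comap (ev (A := A) i j).toLinearMap := ⟨_, rfl⟩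
  have hmB : ∀ X, X ∈ JB ↔ ∀ i j, X i j ∈ J := by
    intro X
    rw [hJB]
    simp only [Submodule.mem_iInf, Submodule.mem_comap]
    rfl
  have hJBc : IsClosed (JB : Set (Matrix (Fin d) (Fin d) A)) := by
    have : (JB : Set (Matrix (Fin d) (Fin d) A)) = ⋂ i, ⋂ j, (ev (A := A) i j) ⁻¹' (J : Set A) := by
      ext X
      simp only [SetLike.mem_coe, hmB, Set.mem_iInter, Set.mem_preimage, ev_apply]
    rw [this]
    exact isClosed_iInter fun i => isClosed_iInter fun j => hJ.preimage (ev i j).continuous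
  have hBl : ∀ X ∈ JB, ∀ Z, Z * X ∈ JB := by
    intro X hX Z
    rw [hmB] at hX ⊢
    intro i j
    rw [Matrix.mul_apply]
    exact J.sum_mem fun k _ => hl _ (hX _ _) _
  have hBr : ∀ X ∈ JB, ∀ Z, X * Z ∈ JB := by
    intro X hX Z
    rw [hmB] at hX ⊢
    intro i j
    rw [Matrix.mul_apply]
    exact J.sum_mem fun k _ => hr _ (hX _ _) _
  have hlimB : ∀ X ∈ JB, Tendsto (fun n => W (Lm a) (Rm b) n X) atTop (𝓝 0) := by
    intro X hX
    rw [hmB] at hX
    have e1 : X = ∑ i, ∑ j, sg i j (X i j) := Matrix.matrix_eq_sum_single X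
    have h1 : Tendsto (fun n => ∑ i, ∑ j, W (Lm a) (Rm b) n (sg i j (X i j))) atTop
        (𝓝 (∑ _i : Fin d, ∑ _j : Fin d, 0)) :=
      tendsto_finsetSum _ fun i _ => tendsto_finsetSum _ fun j _ => hlim1 i j _ (hX i j)
    simp only [Finset.sum_const_zero] at h1
    refine h1.congr fun n => ?_
    conv_rhs => rw [e1]
    simp only [map_sum]
  -- the right vector
  have hbase : ∀ m, bv m - ∑ j, b m j * bv j ∈ J := by
    intro m
    rw [hcJ]
    intro k
    rw [map_sub, sub_eq_zero, hcb]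
    obtain ⟨Λ, hΛ⟩ : ∃ Λ : Matrix (Fin d) (Fin d) A →L[ℂ] ℂ,
        Λ = (c k).comp (∑ j, (Rm (bv j)).comp (ev m j)) := ⟨_, rfl⟩
    have hΛa : ∀ X, Λ X = c k (∑ j, X m j * bv j) := by
      intro X
      rw [hΛ, ContinuousLinearMap.comp_apply]
      congr 1
      rw [sum_apply]
      rfl
    rw [← hΛa]
    have h1 := Λ.hasSum hb
    have h2 : HasSum (fun v => ((μ v : ℝ) : ℂ) * (if k = m then 1 else 0))
        (((1 : ℝ) : ℂ) * (if k = m then 1 else 0)) := (Complex.hasSum_ofReal.2 hμ1).mul_right _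
    rw [Complex.ofReal_one, one_mul] at h2
    refine h2.unique (h1.congr_fun fun v => ?_)
    rw [map_smul, smul_eq_mul, hΛa, map_sum]
    congr 1
    have h3 : ∀ j, c k (Dl δ v (R v) m j * bv j) = R v m j * R v⁻¹ j k := by
      intro j
      rw [Dl_apply, smul_mul_assoc, map_smul, smul_eq_mul, hRa v⁻¹, inv_inv]
    simp only [h3]
    rw [← Matrix.mul_apply, ← hRm, mul_inv_cancel, hR1, Matrix.one_apply]
    simp only [eq_comm]
  have hpowb : ∀ (n : ℕ) (m : Fin d), bv m - (b ^ n *ᵥ bv) m ∈ J := by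
    intro n
    induction n with
    | zero => intro m; simp
    | succ n ih =>
      intro m
      have e1 : bv m - (b ^ (n + 1) *ᵥ bv) m
          = (bv m - ∑ j, b m j * bv j) + ∑ j, b m j * (bv j - (b ^ n *ᵥ bv) j) := by
        rw [pow_succ', ← Matrix.mulVec_mulVec]
        simp only [mul_sub, Finset.sum_sub_distrib]
        rw [sub_add_sub_cancel]
        rfl
      rw [e1]
      exact J.add_mem (hbase m) (J.sum_mem fun j _ => hl _ (ih j) _)
  have hAugb : ∀ E ∈ Aug b, ∀ m, (E *ᵥ bv) m ∈ J := by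
    intro E hE m
    obtain ⟨Λ, hΛ⟩ : ∃ Λ : Matrix (Fin d) (Fin d) A →L[ℂ] A,
        Λ = ∑ j, (Rm (bv j)).comp (ev m j) := ⟨_, rfl⟩
    have hΛa : ∀ X, Λ X = (X *ᵥ bv) m := by
      intro X
      rw [hΛ, sum_apply]
      rfl
    rw [← hΛa]
    have h1 : Aug b ≤ J.comap Λ.toLinearMap := by
      refine Submodule.topologicalClosure_minimal _ (Submodule.span_le.2 ?_)
        (hJ.preimage Λ.continuous)
      rintro _ ⟨n, rfl⟩
      show Λ (1 - b ^ n) ∈ J
      rw [hΛa, Matrix.sub_mulVec, Matrix.one_mulVec, Pi.sub_apply]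
      exact hpowb n m
    exact h1 hE
  -- the left vector
  have hbaseL : ∀ m, bv m - ∑ j, bv j * a j m ∈ J := by
    intro m
    rw [hcJ]
    intro k
    rw [map_sub, sub_eq_zero, hcb]
    obtain ⟨Λ, hΛ⟩ : ∃ Λ : Matrix (Fin d) (Fin d) A →L[ℂ] ℂ,
        Λ = (c k).comp (∑ j, (Lm (bv j)).comp (ev j m)) := ⟨_, rfl⟩
    have hΛa : ∀ X, Λ X = c k (∑ j, bv j * X j m) := by
      intro X
      rw [hΛ, ContinuousLinearMap.comp_apply]
      congr 1
      rw [sum_apply]
      rfl
    rw [← hΛa]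
    have h1 := Λ.hasSum ha
    have h2 : HasSum (fun v => ((μ v : ℝ) : ℂ) * (if k = m then 1 else 0))
        (((1 : ℝ) : ℂ) * (if k = m then 1 else 0)) := (Complex.hasSum_ofReal.2 hμ1).mul_right _
    rw [Complex.ofReal_one, one_mul] at h2
    refine h2.unique (h1.congr_fun fun v => ?_)
    rw [map_smul, smul_eq_mul, hΛa, map_sum]
    congr 1
    have h3 : ∀ j, c k (bv j * Dl δ v (P v) j m) = P v⁻¹ k j * P v j m := by
      intro j
      rw [Dl_apply, mul_smul_comm, map_smul, smul_eq_mul, hPa v⁻¹, inv_inv, mul_comm]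
    simp only [h3]
    rw [← Matrix.mul_apply, ← hPm, inv_mul_cancel, hP1, Matrix.one_apply]
  have hpowa : ∀ (n : ℕ) (m : Fin d), bv m - (bv ᵥ* a ^ n) m ∈ J := by
    intro n
    induction n with
    | zero => intro m; simp
    | succ n ih =>
      intro m
      have e1 : bv m - (bv ᵥ* a ^ (n + 1)) m
          = (bv m - ∑ j, bv j * a j m) + ∑ j, (bv j - (bv ᵥ* a ^ n) j) * a j m := by
        rw [pow_succ, ← Matrix.vecMul_vecMul]
        simp only [sub_mul, Finset.sum_sub_distrib]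
        rw [sub_add_sub_cancel]
        rfl
      rw [e1]
      exact J.add_mem (hbaseL m) (J.sum_mem fun j _ => hr _ (ih j) _)
  have hAuga : ∀ F ∈ Aug a, ∀ m, (bv ᵥ* F) m ∈ J := by
    intro F hF m
    obtain ⟨Λ, hΛ⟩ : ∃ Λ : Matrix (Fin d) (Fin d) A →L[ℂ] A,
        Λ = ∑ j, (Lm (bv j)).comp (ev j m) := ⟨_, rfl⟩
    have hΛa : ∀ X, Λ X = (bv ᵥ* X) m := by
      intro X
      rw [hΛ, sum_apply]
      rfl
    rw [← hΛa]
    have h1 : Aug a ≤ J.comap Λ.toLinearMap := by
      refine Submodule.topologicalClosure_minimal _ (Submodule.span_le.2 ?_)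
        (hJ.preimage Λ.continuous)
      rintro _ ⟨n, rfl⟩
      show Λ (1 - a ^ n) ∈ J
      rw [hΛa, Matrix.vecMul_sub, Matrix.vecMul_one, Pi.sub_apply]
      exact hpowa n m
    exact h1 hF
  -- the pieces
  have piece : ∀ k l, bv k * x * bv l ∈ V := by
    intro k l
    have hxB : sg k l x ∈ JB := by
      rw [hmB]
      intro i j
      rw [sg_apply, Matrix.single_apply]
      split_ifs
      · exact hx
      · exact J.zero_mem
    obtain ⟨Y, hY, E, hE, Z, hZ, F, hF, hEF⟩ := factor_pair han hbn' JB hJBc hBl hBr hlimB _ hxB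
    have e1 : bv ⬝ᵥ (sg k l x *ᵥ bv) = bv k * x * bv l := by
      rw [sg_apply]
      simp only [dotProduct, Matrix.mulVec, Matrix.single_apply]
      rw [Finset.sum_eq_single k, Finset.sum_eq_single l]
      · simp [mul_assoc]
      · intro j _ hj
        rw [if_neg (fun h => hj h.2.symm), zero_mul]
      · intro h; exact absurd (Finset.mem_univ l) h
      · intro i _ hi
        rw [Finset.sum_eq_zero, mul_zero]
        intro j _
        rw [if_neg (fun h => hi h.1.symm), zero_mul]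
      · intro h; exact absurd (Finset.mem_univ k) h
    rw [← e1, hEF, Matrix.add_mulVec, dotProduct_add, ← Matrix.mulVec_mulVec,
      ← Matrix.mulVec_mulVec, Matrix.dotProduct_mulVec bv Y, Matrix.dotProduct_mulVec bv F]
    rw [hmB] at hY hZ
    refine V.add_mem ?_ ?_
    · refine V.sum_mem fun m _ => hVm _ ?_ _ (hAugb E hE m)
      have h1 : ∑ i, bv i * Y i m ∈ J := J.sum_mem fun i _ => hl _ (hY _ _) _
      exact h1
    · refine V.sum_mem fun m _ => hVm _ (hAuga F hF m) _ ?_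
      have h1 : ∑ i, Z m i * bv i ∈ J := J.sum_mem fun i _ => hr _ (hZ _ _) _
      exact h1
  -- the end
  have e2 : x = (1 - w) * x + w * x * (1 - w) + w * x * w := by noncomm_ring
  have hVl : ∀ y ∈ V, ∀ z, z * y ∈ V := by
    intro y hy z
    rw [hV] at hy
    induction hy using Submodule.span_induction with
    | mem y hy =>
      obtain ⟨p, hp, q, hq, rfl⟩ := hy
      rw [← mul_assoc]; exact hVm _ (hl _ hp _) _ hq
    | zero => rw [mul_zero]; exact V.zero_mem
    | add y y' _ _ h h' => rw [mul_add]; exact V.add_mem h h'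
    | smul c y _ h => rw [mul_smul_comm]; exact V.smul_mem _ h
  rw [e2]
  refine V.add_mem (V.add_mem (hVm _ h1w _ hx) (hVm _ (hl _ hx _) _ h1w)) ?_
  have e3 : w * x * w = ∑ k, ∑ l, (c k 1 * c l 1) • (bv k * x * bv l) := by
    rw [hw, Finset.sum_mul, Finset.sum_mul]
    refine Finset.sum_congr rfl fun k _ => ?_
    rw [Finset.mul_sum]
    refine Finset.sum_congr rfl fun l _ => ?_
    rw [smul_mul_assoc, smul_mul_assoc, mul_smul_comm, smul_smul]
  rw [e3]
  exact V.sum_mem fun k _ => V.sum_mem fun l _ => V.smul_mem _ (piece k l)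

end

end Q164.W3
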