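import Mathlib
import Pool.Agent.H937R3.EllOne
import Pool.Agent.Q164.W3.Main

/-!
# The theorem for Mathlib's `lp (fun _ : G => ℂ) 1`
-/

set_option autoImplicit false

namespace Q164.W3

open H937R3

theorem idem_cofinite' {A : Type} [NormedRing A] [NormedAlgebra ℂ A] [CompleteSpace A]
    [NormOneClass A] {G : Type} [Group G] {δ : G → A}
    (hδ : ∀ g, ‖δ g‖ ≤ 1) (hδm : ∀ g h, δ (g * h) = δ g * δ h) (hδ1 : δ 1 = 1)
    (hrep : ∀ x : A, ∃ c : G → ℂ, Summable (fun g => ‖c g‖) ∧ HasSum (fun g => c g • δ g) x)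
    [Countable G]
    (J : Submodule ℂ A) (hJ : IsClosed (J : Set A)) (hl : ∀ x ∈ J, ∀ a, a * x ∈ J)
    (hr : ∀ x ∈ J, ∀ a, x * a ∈ J) (hfd : FiniteDimensional ℂ (A ⧸ J)) :
    Submodule.span ℂ {h : A | ∃ a ∈ J, ∃ b ∈ J, h = a * b} = J :=
  idem_cofinite hδ hδm hδ1 hrep J hJ hl hr

section
variable {G : Type} [DecidableEq G] [Group G]

instance compEll : CompleteSpace (EllOne G) :=
  inferInstanceAs (CompleteSpace (lp (fun _ : G => ℂ) 1))

instance oneEll : NormOneClass (EllOne G) := ⟨EllOne.norm_delta (1 : G)⟩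

/-- the element of the algebra -/
def up (x : lp (fun _ : G => ℂ) 1) : EllOne G := x

theorem rep (x : EllOne G) : ∃ c : G → ℂ, Summable (fun g => ‖c g‖) ∧
    HasSum (fun g => c g • (EllOne.delta g : EllOne G)) x := by
  refine ⟨fun g => EllOne.coeff x g, L1.summable_norm (G := G) x, ?_⟩
  have h : HasSum (fun g => lp.single 1 g ((show lp (fun _ : G => ℂ) 1 from x) g))
      (show lp (fun _ : G => ℂ) 1 from x) :=
    lp.hasSum_single (E := fun _ : G => ℂ) (p := 1) (by norm_num) x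
  have e : (fun g : G => EllOne.coeff x g • (EllOne.delta g : EllOne G))
      = fun g => up (lp.single 1 g ((show lp (fun _ : G => ℂ) 1 from x) g)) := by
    funext g
    show (show lp (fun _ : G => ℂ) 1 from x) g • (lp.single 1 g (1 : ℂ) : lp (fun _ : G => ℂ) 1)
      = (lp.single 1 g ((show lp (fun _ : G => ℂ) 1 from x) g) : lp (fun _ : G => ℂ) 1)
    rw [← lp.single_smul]
    simp
  rw [e]
  exact h

theorem mul_iff (a b h : lp (fun _ : G => ℂ) 1) : up h = up a * up b ↔ ∀ x : G,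
    h x = ∑' y : G, a y * b (y⁻¹ * x) := by
  constructor
  · intro hh x
    have h1 : h x = EllOne.coeff (up a * up b) x := by rw [← hh]; rfl
    rw [h1]
    exact EllOne.conv_apply (up a) (up b) x
  · intro hx
    have h1 : ∀ x, h x = (show lp (fun _ : G => ℂ) 1 from (up a * up b)) x := fun x => by
      rw [hx x]
      exact (EllOne.conv_apply (up a) (up b) x).symm
    exact lp.ext (funext h1)

/-- Closed ideals of finite codimension in `ℓ¹(G)`, `G` a countable group, are idempotent. -/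
theorem idem_ell [Countable G] (I : Submodule ℂ (lp (fun _ : G => ℂ) 1))
    (hI : IsClosed (I : Set (lp (fun _ : G => ℂ) 1)))
    (hr : ∀ f ∈ I, ∀ g h : lp (fun _ : G => ℂ) 1,
      (∀ x : G, h x = ∑' y : G, f y * g (y⁻¹ * x)) → h ∈ I)
    (hl : ∀ f ∈ I, ∀ g h : lp (fun _ : G => ℂ) 1,
      (∀ x : G, h x = ∑' y : G, g y * f (y⁻¹ * x)) → h ∈ I)
    (hfd : FiniteDimensional ℂ ((lp (fun _ : G => ℂ) 1) ⧸ I)) :
    Submodule.span ℂ {h : lp (fun _ : G => ℂ) 1 | ∃ a ∈ I, ∃ b ∈ I, ∀ x : G,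
      h x = ∑' y : G, a y * b (y⁻¹ * x)} = I := by
  have key := idem_cofinite' (A := EllOne G) (G := G) (δ := fun g => (EllOne.delta g : EllOne G))
    (fun g => (EllOne.norm_delta g).le) (fun g h => (EllOne.delta_mul_delta g h).symm)
    EllOne.one_def.symm rep I hI
    (fun x hx a => hl x hx a (show lp (fun _ : G => ℂ) 1 from up a * up x)
      ((mul_iff a x _).1 rfl))
    (fun x hx a => hr x hx a (show lp (fun _ : G => ℂ) 1 from up x * up a)
      ((mul_iff x a _).1 rfl)) hfd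
  have e : {h : lp (fun _ : G => ℂ) 1 | ∃ a ∈ I, ∃ b ∈ I, ∀ x : G,
      h x = ∑' y : G, a y * b (y⁻¹ * x)}
      = {h : EllOne G | ∃ a ∈ I, ∃ b ∈ I, h = up a * up b} := by
    ext h
    constructor
    · rintro ⟨a, ha, b, hb, hab⟩
      exact ⟨a, ha, b, hb, (mul_iff a b h).2 hab⟩
    · rintro ⟨a, ha, b, hb, hab⟩
      exact ⟨a, ha, b, hb, (mul_iff a b h).1 hab⟩
  rw [e]
  exact key

end

end Q164.W3
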